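import Mathlib
import Pool.Agent.Q167.SL.StmA

/-!
# Project SL2: basic facts on the shell and on the pairing
-/

set_option autoImplicit false
set_option linter.unusedVariables false

open MeasureTheory Filter Topology

namespace Pool.Agent.Q144.SL

open Pool.Agent.TH41.KL (PD cosA)
open Pool.Agent.Q167.SL

abbrev Eu (n : ℕ) := EuclideanSpace ℝ (Fin n)

/-! ### the cosine -/

theorem cosA_mem {n : ℕ} (x y : Eu n) : cosA x y ∈ Set.Icc (-1 : ℝ) 1 := by
  have h := abs_real_inner_div_norm_mul_norm_le_one x y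
  exact abs_le.1 h

theorem cosA_smul {n : ℕ} (x y : Eu n) {a : ℝ} (ha : 0 < a) : cosA (a • x) y = cosA x y := by
  unfold Pool.Agent.TH41.KL.cosA
  rw [inner_smul_left, norm_smul, Real.norm_eq_abs, abs_of_pos ha, mul_assoc]
  exact mul_div_mul_left _ _ ha.ne'

theorem cosA_smul' {n : ℕ} (x y : Eu n) {a : ℝ} (ha : 0 < a) : cosA x (a • y) = cosA x y := by
  unfold Pool.Agent.TH41.KL.cosA
  rw [inner_smul_right, norm_smul, Real.norm_eq_abs, abs_of_pos ha]
  rw [show ‖x‖ * (a * ‖y‖) = a * (‖x‖ * ‖y‖) by ring]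
  exact mul_div_mul_left _ _ ha.ne'

theorem cosA_meas {n : ℕ} : Measurable fun p : Eu n × Eu n => cosA p.1 p.2 := by
  unfold Pool.Agent.TH41.KL.cosA
  have h1 : Measurable fun p : Eu n × Eu n => inner ℝ p.1 p.2 := continuous_inner.measurable
  have h2 : Measurable fun p : Eu n × Eu n => ‖p.1‖ * ‖p.2‖ := by fun_prop
  exact h1.div h2

/-- continuous bounded extension of `g` -/
theorem exists_ext {g : ℝ → ℝ} (hg : ContinuousOn g (Set.Icc (-1) 1)) :
    ∃ h : ℝ → ℝ, Continuous h ∧ (∀ t ∈ Set.Icc (-1 : ℝ) 1, h t = g t) ∧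
      ∃ M : ℝ, 0 ≤ M ∧ ∀ t, |h t| ≤ M := by
  have hc : Continuous fun t : ℝ => max (-1) (min 1 t) := by fun_prop
  have hm : ∀ t : ℝ, max (-1) (min 1 t) ∈ Set.Icc (-1 : ℝ) 1 := fun t =>
    ⟨le_max_left _ _, max_le (by norm_num) (min_le_left _ _)⟩
  obtain ⟨M, hM⟩ := isCompact_Icc.exists_bound_of_continuousOn hg
  refine ⟨fun t => g (max (-1) (min 1 t)), hg.comp_continuous hc hm, ?_, max M 0,
    le_max_right _ _, fun t => (hM _ (hm t)).trans (le_max_left _ _)⟩
  intro t ht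
  show g (max (-1) (min 1 t)) = g t
  rw [min_eq_right ht.2, max_eq_right ht.1]

/-! ### the shell -/

theorem shell_sub {n : ℕ} {r : ℝ} : shell n r ⊆ Metric.ball 0 1 := by
  intro x hx
  rw [mem_ball_zero_iff]
  exact hx.2

theorem shell_open {n : ℕ} {r : ℝ} : IsOpen (shell n r) := by
  apply IsOpen.inter
  · exact isOpen_lt continuous_const continuous_norm
  · exact isOpen_lt continuous_norm continuous_const

theorem shell_meas {n : ℕ} {r : ℝ} : MeasurableSet (shell n r) := shell_open.measurableSet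

theorem shell_lt {n : ℕ} {r : ℝ} : volume (shell n r) < ⊤ :=
  (measure_mono shell_sub).trans_lt measure_ball_lt_top

instance shell_fin {n : ℕ} {r : ℝ} : IsFiniteMeasure (volume.restrict (shell n r)) :=
  isFiniteMeasure_restrict.2 shell_lt.ne

instance ball_fin {n : ℕ} {r : ℝ} :
    IsFiniteMeasure (volume.restrict (Metric.ball (0 : Eu n) r)) :=
  isFiniteMeasure_restrict.2 measure_ball_lt_top.ne

theorem inner_mem {n : ℕ} {r : ℝ} {x y : Eu n} (hx : x ∈ shell n r) (hy : y ∈ shell n r) :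
    inner ℝ x y ∈ Set.Icc (-1 : ℝ) 1 := by
  have h := abs_real_inner_le_norm x y
  have h1 : ‖x‖ * ‖y‖ ≤ 1 := by
    have := hx.2
    have := hy.2
    have := norm_nonneg x
    have := norm_nonneg y
    nlinarith
  exact abs_le.1 (h.trans h1)

theorem vs_nonneg (n : ℕ) (r : ℝ) : 0 ≤ vs n r := ENNReal.toReal_nonneg

theorem real_shell {n : ℕ} {r : ℝ} : (volume.restrict (shell n r)).real Set.univ = vs n r := by
  rw [Measure.real, Measure.restrict_apply_univ]
  rfl

theorem vs_pos {n : ℕ} {r : ℝ} (hn : 0 < n) (hr0 : 0 ≤ r) (hr : r < 1) : 0 < vs n r := by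
  unfold vs
  rw [ENNReal.toReal_pos_iff]
  refine ⟨?_, shell_lt⟩
  refine shell_open.measure_pos volume ?_
  let e : Eu n := EuclideanSpace.single ⟨0, hn⟩ ((r + 1) / 2)
  refine ⟨e, ?_⟩
  have he : ‖e‖ = (r + 1) / 2 := by
    rw [PiLp.norm_single, Real.norm_eq_abs, abs_of_nonneg (by linarith)]
  constructor
  · rw [he]; linarith
  · rw [he]; linarith

/-- `g 1` is not negative -/
theorem g_one_nonneg {n : ℕ} (hn : 0 < n) {g : ℝ → ℝ} (hg : PD n g) : 0 ≤ g 1 := by
  let e : Eu n := EuclideanSpace.single ⟨0, hn⟩ 1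
  have he : ‖e‖ = 1 := by
    rw [PiLp.norm_single, Real.norm_eq_abs, abs_one]
  have := hg 1 (fun _ => e) (fun _ => 1) (fun _ => he)
  simp only [Finset.univ_unique, Finset.sum_singleton, one_mul] at this
  rwa [real_inner_self_eq_norm_sq, he, one_pow] at this

/-! ### the pairing -/

theorem pr_congr {n : ℕ} {r : ℝ} {g : ℝ → ℝ} {h : ℝ → ℝ} {u u' : ℝ → ℂ}
    (hg : ∀ t ∈ Set.Icc (-1 : ℝ) 1, h t = g t) (hu : ∀ t ∈ Set.Icc (-1 : ℝ) 1, u' t = u t) :
    pr n r g u = ∫ x in shell n r, ∫ y in shell n r,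
      ((h (cosA x y) : ℝ) : ℂ) * u' (inner ℝ x y) := by
  unfold pr
  refine setIntegral_congr_fun shell_meas fun x hx => ?_
  refine setIntegral_congr_fun shell_meas fun y hy => ?_
  show ((g (cosA x y) : ℝ) : ℂ) * u (inner ℝ x y) = ((h (cosA x y) : ℝ) : ℂ) * u' (inner ℝ x y)
  rw [hg _ (cosA_mem x y), hu _ (inner_mem hx hy)]

section meas

variable {n : ℕ} {h : ℝ → ℝ} {v : ℝ → ℂ}

theorem ker_meas (hh : Continuous h) (hv : Continuous v) :
    Measurable fun p : Eu n × Eu n => ((h (cosA p.1 p.2) : ℝ) : ℂ) * v (inner ℝ p.1 p.2) := by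
  have h1 : Measurable fun p : Eu n × Eu n => h (cosA p.1 p.2) := hh.measurable.comp cosA_meas
  have h2 : Measurable fun p : Eu n × Eu n => v (inner ℝ p.1 p.2) :=
    hv.measurable.comp continuous_inner.measurable
  exact (Complex.measurable_ofReal.comp h1).mul h2

theorem ker_meas' (hh : Continuous h) (hv : Continuous v) (x : Eu n) :
    Measurable fun y : Eu n => ((h (cosA x y) : ℝ) : ℂ) * v (inner ℝ x y) := by
  let f : Eu n → Eu n × Eu n := fun y => (x, y)
  have h1 : Measurable f := measurable_prodMk_left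
  have h2 := (ker_meas (n := n) hh hv).comp h1
  exact h2

theorem ker_bound {M b : ℝ} (hM : ∀ t, |h t| ≤ M) (hb : ∀ t, ‖v t‖ ≤ b) (x y : Eu n) :
    ‖((h (cosA x y) : ℝ) : ℂ) * v (inner ℝ x y)‖ ≤ M * b := by
  rw [norm_mul, Complex.norm_real, Real.norm_eq_abs]
  exact mul_le_mul (hM _) (hb _) (norm_nonneg _) ((abs_nonneg _).trans (hM 0))

theorem ker_int (hh : Continuous h) (hv : Continuous v) {M b : ℝ} (hM : ∀ t, |h t| ≤ M)
    (hb : ∀ t, ‖v t‖ ≤ b) (μ : Measure (Eu n)) [IsFiniteMeasure μ] (x : Eu n) :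
    Integrable (fun y : Eu n => ((h (cosA x y) : ℝ) : ℂ) * v (inner ℝ x y)) μ :=
  Integrable.of_bound (ker_meas' hh hv x).aestronglyMeasurable (M * b)
    (Eventually.of_forall fun y => ker_bound hM hb x y)

theorem outer_meas (hh : Continuous h) (hv : Continuous v) (μ : Measure (Eu n))
    [IsFiniteMeasure μ] :
    StronglyMeasurable fun x : Eu n =>
      ∫ y, ((h (cosA x y) : ℝ) : ℂ) * v (inner ℝ x y) ∂μ :=
  (ker_meas hh hv).stronglyMeasurable.integral_prod_right

theorem outer_bound {M b : ℝ} (hM : ∀ t, |h t| ≤ M) (hb : ∀ t, ‖v t‖ ≤ b) (μ : Measure (Eu n))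
    [IsFiniteMeasure μ] (x : Eu n) :
    ‖∫ y, ((h (cosA x y) : ℝ) : ℂ) * v (inner ℝ x y) ∂μ‖ ≤ M * b * μ.real Set.univ :=
  norm_integral_le_of_norm_le_const (Eventually.of_forall fun y => ker_bound hM hb x y)

theorem outer_int (hh : Continuous h) (hv : Continuous v) {M b : ℝ} (hM : ∀ t, |h t| ≤ M)
    (hb : ∀ t, ‖v t‖ ≤ b) (μ ν : Measure (Eu n)) [IsFiniteMeasure μ] [IsFiniteMeasure ν] :
    Integrable (fun x : Eu n => ∫ y, ((h (cosA x y) : ℝ) : ℂ) * v (inner ℝ x y) ∂μ) ν :=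
  Integrable.of_bound (outer_meas hh hv μ).aestronglyMeasurable (M * b * μ.real Set.univ)
    (Eventually.of_forall fun x => outer_bound hM hb μ x)

end meas

end Pool.Agent.Q144.SL
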