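import Mathlib
import Pool.Agent.Q144.SL.Pr

/-!
# Project SL2: A-EXT, exact extension of `C¹` functions with small dual size
-/

set_option autoImplicit false
set_option linter.unusedVariables false

open MeasureTheory Filter Topology

namespace Pool.Agent.Q144.SL

open Pool.Agent.TH41.KL (PD cosA)
open Pool.Agent.Q167.SL

/-! ### dual size of sums -/

theorem Bd.mono {n : ℕ} (hn : 0 < n) {r D D' : ℝ} {u : ℝ → ℂ} (h : Bd n r D u) (hD : D ≤ D') :
    Bd n r D' u := by
  intro g hg hP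
  refine (h g hg hP).trans ?_
  have h1 := g_one_nonneg hn hP
  have h2 : 0 ≤ vs n r ^ 2 := sq_nonneg _
  have h3 := mul_nonneg h1 h2
  nlinarith

theorem Bd.congr {n : ℕ} {r D : ℝ} {u u' : ℝ → ℂ} (h : Bd n r D u)
    (he : ∀ t ∈ Set.Icc (-1 : ℝ) 1, u' t = u t) : Bd n r D u' := by
  intro g hg hP
  have := h g hg hP
  rwa [pr_congr (h := g) (fun _ _ => rfl) he, ← pr_congr (h := g) (u := u') (u' := u')
    (fun _ _ => rfl) (fun _ _ => rfl)] at this

theorem Bd.smul {n : ℕ} {r D : ℝ} {u : ℝ → ℂ} (h : Bd n r D u) (c : ℂ) :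
    Bd n r (‖c‖ * D) (fun τ => c * u τ) := by
  intro g hg hP
  have e : pr n r g (fun τ => c * u τ) = c * pr n r g u := by
    unfold pr
    rw [← integral_const_mul]
    refine integral_congr_ae (Eventually.of_forall fun x => ?_)
    show ∫ y in shell n r, ((g (cosA x y) : ℝ) : ℂ) * (c * u (inner ℝ x y)) =
      c * ∫ y in shell n r, ((g (cosA x y) : ℝ) : ℂ) * u (inner ℝ x y)
    rw [← integral_const_mul]
    refine integral_congr_ae (Eventually.of_forall fun y => ?_)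
    show ((g (cosA x y) : ℝ) : ℂ) * (c * u (inner ℝ x y)) =
      c * (((g (cosA x y) : ℝ) : ℂ) * u (inner ℝ x y))
    ring
  rw [e, norm_mul]
  have := mul_le_mul_of_nonneg_left (h g hg hP) (norm_nonneg c)
  linarith

/-- the pairing with a uniformly convergent sum -/
theorem pr_tsum {ι : Type} [Countable ι] {n : ℕ} {r : ℝ} {g : ℝ → ℝ}
    (hg : ContinuousOn g (Set.Icc (-1) 1))
    {v : ι → ℝ → ℂ} {b : ι → ℝ} (hv : ∀ i, Continuous (v i)) (hb : ∀ i t, ‖v i t‖ ≤ b i)
    (hs : Summable b) : HasSum (fun i => pr n r g (v i)) (pr n r g (fun τ => ∑' i, v i τ)) := by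
  obtain ⟨h, hc, he, M, hM0, hM⟩ := exists_ext hg
  have hsc : ∀ t, Summable fun i => v i t := fun t =>
    Summable.of_norm_bounded hs fun i => hb i t
  have hvc : Continuous fun τ => ∑' i, v i τ := continuous_tsum hv hs hb
  have hpr : ∀ u : ℝ → ℂ, pr n r g u = ∫ x in shell n r, ∫ y in shell n r,
      ((h (cosA x y) : ℝ) : ℂ) * u (inner ℝ x y) := fun u => pr_congr he (fun _ _ => rfl)
  rw [hpr]
  have e0 : (fun i => pr n r g (v i)) = fun i => ∫ x in shell n r, ∫ y in shell n r,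
      ((h (cosA x y) : ℝ) : ℂ) * v i (inner ℝ x y) := funext fun i => hpr (v i)
  rw [e0]
  have hVr : (volume.restrict (shell n r)).real Set.univ = vs n r := real_shell
  -- inner sums
  have hin : ∀ x : Eu n, HasSum (fun i => ∫ y in shell n r,
      ((h (cosA x y) : ℝ) : ℂ) * v i (inner ℝ x y))
      (∫ y in shell n r, ((h (cosA x y) : ℝ) : ℂ) * ∑' i, v i (inner ℝ x y)) := by
    intro x
    have h1 := hasSum_integral_of_summable_integral_norm (μ := volume.restrict (shell n r))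
      (F := fun i (y : Eu n) => ((h (cosA x y) : ℝ) : ℂ) * v i (inner ℝ x y))
      (fun i => ker_int hc (hv i) hM (hb i) _ x) (by
        refine Summable.of_nonneg_of_le (fun i => integral_nonneg fun y => norm_nonneg _)
          (fun i => ?_) (hs.mul_left (M * vs n r))
        have h2 : ‖∫ y in shell n r, ‖((h (cosA x y) : ℝ) : ℂ) * v i (inner ℝ x y)‖‖ ≤
            M * b i * (volume.restrict (shell n r)).real Set.univ :=
          norm_integral_le_of_norm_le_const (Eventually.of_forall fun y => by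
            rw [norm_norm]
            exact ker_bound hM (hb i) x y)
        rw [hVr] at h2
        refine (le_abs_self _).trans (h2.trans (le_of_eq ?_))
        ring)
    have e1 : (fun y : Eu n => ∑' i, ((h (cosA x y) : ℝ) : ℂ) * v i (inner ℝ x y)) =
        fun y : Eu n => ((h (cosA x y) : ℝ) : ℂ) * ∑' i, v i (inner ℝ x y) := by
      funext y
      rw [tsum_mul_left]
    rw [← e1]
    exact h1
  have h1 := hasSum_integral_of_summable_integral_norm (μ := volume.restrict (shell n r))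
    (F := fun i (x : Eu n) => ∫ y in shell n r, ((h (cosA x y) : ℝ) : ℂ) * v i (inner ℝ x y))
    (fun i => outer_int hc (hv i) hM (hb i) _ _) (by
      refine Summable.of_nonneg_of_le (fun i => integral_nonneg fun y => norm_nonneg _)
        (fun i => ?_) (hs.mul_left (M * vs n r * vs n r))
      have h2 : ‖∫ x in shell n r, ‖∫ y in shell n r,
          ((h (cosA x y) : ℝ) : ℂ) * v i (inner ℝ x y)‖‖ ≤
          M * b i * (volume.restrict (shell n r)).real Set.univ *
            (volume.restrict (shell n r)).real Set.univ :=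
        norm_integral_le_of_norm_le_const (Eventually.of_forall fun x => by
          rw [norm_norm]
          exact outer_bound hM (hb i) _ x)
      rw [hVr] at h2
      refine (le_abs_self _).trans (h2.trans (le_of_eq ?_))
      ring)
  have e2 : (fun x : Eu n => ∑' i, ∫ y in shell n r,
      ((h (cosA x y) : ℝ) : ℂ) * v i (inner ℝ x y)) = fun x : Eu n => ∫ y in shell n r,
      ((h (cosA x y) : ℝ) : ℂ) * ∑' i, v i (inner ℝ x y) := by
    funext x
    exact (hin x).tsum_eq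
  rw [e2] at h1
  exact h1

theorem Bd.tsum {ι : Type} [Countable ι] {n : ℕ} (hn : 0 < n) {r : ℝ}
    {v : ι → ℝ → ℂ} {b D : ι → ℝ} (hv : ∀ i, Continuous (v i)) (hb : ∀ i t, ‖v i t‖ ≤ b i)
    (hs : Summable b) (hD : ∀ i, Bd n r (D i) (v i)) (hDs : Summable D) :
    Bd n r (∑' i, D i) (fun τ => ∑' i, v i τ) := by
  intro g hg hP
  have h1 := pr_tsum (n := n) (r := r) hg hv hb hs
  rw [← h1.tsum_eq]
  have h2 : ∀ i, ‖pr n r g (v i)‖ ≤ D i * (g 1 * vs n r ^ 2) := fun i => by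
    have := hD i g hg hP
    linarith
  have h3 := tsum_of_norm_bounded (hDs.hasSum.mul_right (g 1 * vs n r ^ 2)) h2
  linarith

/-! ### the data -/

/-- `C¹` data on `[a, 1]` with bound `B` -/
def Dat (a B : ℝ) (p : (ℝ → ℂ) × (ℝ → ℂ)) : Prop :=
  (∀ τ ∈ Set.Icc a 1, HasDerivWithinAt p.1 (p.2 τ) (Set.Icc a 1) τ) ∧
  ContinuousOn p.2 (Set.Icc a 1) ∧ ∀ τ ∈ Set.Icc a 1, ‖p.1 τ‖ ≤ B ∧ ‖p.2 τ‖ ≤ B

theorem clp_mem (τ : ℝ) : max (-1 : ℝ) (min 1 τ) ∈ Set.Icc (-1 : ℝ) 1 :=
  ⟨le_max_left _ _, max_le (by norm_num) (min_le_left _ _)⟩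

theorem clp_id {τ : ℝ} (h : τ ∈ Set.Icc (-1 : ℝ) 1) : max (-1 : ℝ) (min 1 τ) = τ := by
  rw [min_eq_right h.2, max_eq_right h.1]

/-- one step of the iteration -/
theorem step (hfour : S_four) {n : ℕ} (hn : 0 < n) {r a θ M D : ℝ} (ha : -1 ≤ a) (ha1 : a < 1)
    (hθ : 0 ≤ θ) (hM : 0 ≤ M) (hD : 0 ≤ D) (h6 : 6 * θ ≤ 1) (hfam : Fam n r a θ M D)
    {B : ℝ} (hB : 0 ≤ B) {p : (ℝ → ℂ) × (ℝ → ℂ)} (hp : Dat a B p) :
    ∃ (w : ℝ → ℂ) (q : (ℝ → ℂ) × (ℝ → ℂ)), Dat a (B / 2) q ∧ Continuous w ∧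
      (∀ τ, ‖w τ‖ ≤ 3 * B * M) ∧ Bd n r (3 * B * D) w ∧
      ∀ τ ∈ Set.Icc a 1, p.1 τ = w τ + q.1 τ := by
  obtain ⟨hp1, hp2, hp3⟩ := hp
  obtain ⟨c, hc1, hc2, hc3⟩ := hfour a B p.1 p.2 ha ha1 hp1 hp2 hp3
  choose u ud hu hud hue huM huD using hfam
  let lam : ℤ → ℝ := fun j => Real.pi * j / (1 - a)
  let e : ℤ → ℝ → ℂ := fun j τ => Complex.exp (((lam j * τ : ℝ) : ℂ) * Complex.I) - u (lam j) τ
  let ed : ℤ → ℝ → ℂ := fun j τ =>
    lam j * Complex.I * Complex.exp (((lam j * τ : ℝ) : ℂ) * Complex.I) - ud (lam j) τ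
  have hexp : ∀ (l τ : ℝ), HasDerivAt (fun τ : ℝ => Complex.exp (((l * τ : ℝ) : ℂ) * Complex.I))
      (l * Complex.I * Complex.exp (((l * τ : ℝ) : ℂ) * Complex.I)) τ := by
    intro l τ
    have h1 : HasDerivAt (fun τ : ℝ => ((l * τ : ℝ) : ℂ) * Complex.I) ((l : ℂ) * Complex.I) τ := by
      have h2 : HasDerivAt (fun τ : ℝ => l * τ) (l * 1) τ := (hasDerivAt_id τ).const_mul l
      have h3 := h2.ofReal_comp
      rw [mul_one] at h3
      exact h3.mul_const Complex.I
    have h4 := h1.cexp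
    rw [mul_comm] at h4
    exact h4
  have hed : ∀ j τ, HasDerivAt (e j) (ed j τ) τ := fun j τ => (hexp (lam j) τ).sub (hu (lam j) τ)
  have hexpc : ∀ l : ℝ, Continuous fun τ : ℝ => Complex.exp (((l * τ : ℝ) : ℂ) * Complex.I) :=
    fun l => continuous_iff_continuousAt.2 fun τ => (hexp l τ).continuousAt
  have hedc : ∀ j, Continuous (ed j) := fun j =>
    (continuous_const.mul (hexpc (lam j))).sub (hud (lam j))
  have hclc : Continuous fun τ : ℝ => max a (min 1 τ) := by fun_prop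
  have hcm : ∀ τ : ℝ, max a (min 1 τ) ∈ Set.Icc a 1 := fun τ =>
    ⟨le_max_left _ _, max_le ha1.le (min_le_left _ _)⟩
  have hcid : ∀ τ ∈ Set.Icc a 1, max a (min 1 τ) = τ := fun τ hτ => by
    rw [min_eq_right hτ.2, max_eq_right hτ.1]
  let E : ℤ → ℝ → ℂ := fun j τ => ed j (max a (min 1 τ))
  have hEc : ∀ j, Continuous (E j) := fun j => (hedc j).comp hclc
  have hnorm1 : ∀ j, ∀ τ ∈ Set.Icc a 1, ‖e j τ‖ ≤ θ ∧ ‖ed j τ‖ ≤ θ := by
    intro j τ hτ
    obtain ⟨h1, h2⟩ := hue (lam j) τ hτ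
    constructor
    · show ‖Complex.exp (((lam j * τ : ℝ) : ℂ) * Complex.I) - u (lam j) τ‖ ≤ θ
      rw [norm_sub_rev]
      exact h1
    · show ‖lam j * Complex.I * Complex.exp (((lam j * τ : ℝ) : ℂ) * Complex.I) - ud (lam j) τ‖ ≤ θ
      rw [norm_sub_rev]
      exact h2
  have hEb : ∀ j τ, ‖E j τ‖ ≤ θ := fun j τ => (hnorm1 j _ (hcm τ)).2
  -- the primitives
  let U : ℤ → ℝ → ℂ := fun j τ => e j a + ∫ s in a..τ, E j s
  have hUd : ∀ j τ, HasDerivAt (U j) (E j τ) τ := by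
    intro j τ
    have h1 : HasDerivAt (fun τ => ∫ s in a..τ, E j s) (E j τ) τ :=
      intervalIntegral.integral_hasDerivAt_right ((hEc j).intervalIntegrable _ _)
        (hEc j).aestronglyMeasurable.stronglyMeasurableAtFilter (hEc j).continuousAt
    exact h1.const_add (e j a)
  have hUe : ∀ j, ∀ τ ∈ Set.Icc a 1, U j τ = e j τ := by
    intro j τ hτ
    have h1 : ∫ s in a..τ, E j s = ∫ s in a..τ, ed j s := by
      refine intervalIntegral.integral_congr fun s hs => ?_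
      rw [Set.uIcc_of_le hτ.1] at hs
      show ed j (max a (min 1 s)) = ed j s
      rw [hcid s ⟨hs.1, hs.2.trans hτ.2⟩]
    have h2 : ∫ s in a..τ, ed j s = e j τ - e j a :=
      intervalIntegral.integral_eq_sub_of_hasDerivAt (fun s _ => hed j s)
        ((hedc j).intervalIntegrable _ _)
    show e j a + ∫ s in a..τ, E j s = e j τ
    rw [h1, h2]
    ring
  have hsθ : Summable fun j => ‖c j‖ * θ := hc1.mul_right θ
  have hcE : ∀ j τ, ‖c j * E j τ‖ ≤ ‖c j‖ * θ := fun j τ => by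
    rw [norm_mul]
    exact mul_le_mul_of_nonneg_left (hEb j τ) (norm_nonneg _)
  have ham : a ∈ Set.Icc a 1 := ⟨le_rfl, ha1.le⟩
  have hU0 : Summable fun j => c j * U j a := by
    refine Summable.of_norm_bounded hsθ fun j => ?_
    rw [norm_mul, hUe j a ham]
    exact mul_le_mul_of_nonneg_left (hnorm1 j a ham).1 (norm_nonneg _)
  have hder : ∀ τ, HasDerivAt (fun τ => ∑' j, c j * U j τ) (∑' j, c j * E j τ) τ := fun τ =>
    hasDerivAt_tsum hsθ (fun j τ => (hUd j τ).const_mul (c j)) hcE hU0 τ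
  have hSc : Continuous fun τ => ∑' j, c j * E j τ :=
    continuous_tsum (fun j => continuous_const.mul (hEc j)) hsθ hcE
  have htot : ∑' j, ‖c j‖ * θ ≤ B / 2 := by
    rw [tsum_mul_right]
    nlinarith
  -- the function w
  let v : ℤ → ℝ → ℂ := fun j τ => c j * u (lam j) (max (-1) (min 1 τ))
  have hclp : Continuous fun τ : ℝ => max (-1 : ℝ) (min 1 τ) := by fun_prop
  have huc : ∀ l, Continuous (u l) := fun l =>
    continuous_iff_continuousAt.2 fun τ => (hu l τ).continuousAt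
  have hvc : ∀ j, Continuous (v j) := fun j => continuous_const.mul ((huc (lam j)).comp hclp)
  have hvb : ∀ j t, ‖v j t‖ ≤ ‖c j‖ * M := fun j t => by
    show ‖c j * u (lam j) (max (-1) (min 1 t))‖ ≤ _
    rw [norm_mul]
    exact mul_le_mul_of_nonneg_left (huM (lam j) _ (clp_mem t)) (norm_nonneg _)
  have hsM : Summable fun j => ‖c j‖ * M := hc1.mul_right M
  have hsD : Summable fun j => ‖c j‖ * D := hc1.mul_right D
  refine ⟨fun τ => ∑' j, v j τ, (fun τ => ∑' j, c j * U j τ, fun τ => ∑' j, c j * E j τ),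
    ⟨?_, ?_, ?_⟩, ?_, ?_, ?_, ?_⟩
  · intro τ hτ
    exact (hder τ).hasDerivWithinAt
  · exact hSc.continuousOn
  · intro τ hτ
    constructor
    · show ‖∑' j, c j * U j τ‖ ≤ B / 2
      refine (tsum_of_norm_bounded hsθ.hasSum fun j => ?_).trans htot
      rw [norm_mul, hUe j τ hτ]
      exact mul_le_mul_of_nonneg_left (hnorm1 j τ hτ).1 (norm_nonneg _)
    · show ‖∑' j, c j * E j τ‖ ≤ B / 2
      exact (tsum_of_norm_bounded hsθ.hasSum fun j => hcE j τ).trans htot
  · exact continuous_tsum hvc hsM hvb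
  · intro τ
    refine (tsum_of_norm_bounded hsM.hasSum fun j => hvb j τ).trans ?_
    rw [tsum_mul_right]
    exact mul_le_mul_of_nonneg_right hc2 hM
  · have h1 := Bd.tsum (n := n) hn (r := r) hvc hvb hsM
      (D := fun j => ‖c j‖ * D) (fun j => by
        have h2 := Bd.smul (huD (lam j)) (c j)
        exact Bd.congr h2 fun t ht => by
          show c j * u (lam j) (max (-1) (min 1 t)) = c j * u (lam j) t
          rw [clp_id ht]) hsD
    refine Bd.mono hn h1 ?_
    rw [tsum_mul_right]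
    exact mul_le_mul_of_nonneg_right hc2 hD
  · intro τ hτ
    have hτ' : τ ∈ Set.Icc (-1 : ℝ) 1 := ⟨ha.trans hτ.1, hτ.2⟩
    have h1 := hc3 τ hτ
    have h2 : Summable fun j => v j τ := Summable.of_norm_bounded hsM fun j => hvb j τ
    have h3 : Summable fun j => c j * U j τ := by
      refine Summable.of_norm_bounded hsθ fun j => ?_
      rw [norm_mul, hUe j τ hτ]
      exact mul_le_mul_of_nonneg_left (hnorm1 j τ hτ).1 (norm_nonneg _)
    have h4 := h2.hasSum.add h3.hasSum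
    have h5 : (fun j => v j τ + c j * U j τ) = fun j => c j *
        Complex.exp (((Real.pi * j / (1 - a) * τ : ℝ) : ℂ) * Complex.I) := by
      funext j
      show c j * u (lam j) (max (-1) (min 1 τ)) + c j * U j τ = _
      rw [clp_id hτ', hUe j τ hτ]
      show c j * u (lam j) τ + c j * (Complex.exp (((lam j * τ : ℝ) : ℂ) * Complex.I) -
        u (lam j) τ) = _
      ring
    rw [h5] at h4
    exact h1.unique h4

theorem ext (hfour : S_four) : S_ext := by
  intro n r a θ M D hn hr hr1 ha ha1 hθ hM hD h6 hfam B φ φd hB hφ hφd hφb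
  have hstep : ∀ (B : ℝ) (p : (ℝ → ℂ) × (ℝ → ℂ)), 0 ≤ B ∧ Dat a B p →
      ∃ (w : ℝ → ℂ) (q : (ℝ → ℂ) × (ℝ → ℂ)), Dat a (B / 2) q ∧ Continuous w ∧
      (∀ τ, ‖w τ‖ ≤ 3 * B * M) ∧ Bd n r (3 * B * D) w ∧
      ∀ τ ∈ Set.Icc a 1, p.1 τ = w τ + q.1 τ := fun B p h =>
    step hfour hn ha ha1 hθ hM hD h6 hfam h.1 h.2
  choose! w q hq1 hq2 hq3 hq4 hq5 using hstep
  let s : ℕ → (ℝ → ℂ) × (ℝ → ℂ) := fun i =>
    Nat.rec (φ, φd) (fun i p => q (B / 2 ^ i) p) i
  have hs0 : s 0 = (φ, φd) := rfl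
  have hs1 : ∀ i, s (i + 1) = q (B / 2 ^ i) (s i) := fun i => rfl
  have hBi : ∀ i : ℕ, 0 ≤ B / 2 ^ i := fun i => by positivity
  have hdat : ∀ i, Dat a (B / 2 ^ i) (s i) := by
    intro i
    induction i with
    | zero =>
      rw [pow_zero, div_one, hs0]
      exact ⟨hφ, hφd, hφb⟩
    | succ i ih =>
      have := hq1 (B / 2 ^ i) (s i) ⟨hBi i, ih⟩
      rw [hs1, pow_succ, ← div_div]
      exact this
  let W : ℕ → ℝ → ℂ := fun i => w (B / 2 ^ i) (s i)
  have hWc : ∀ i, Continuous (W i) := fun i => hq2 _ _ ⟨hBi i, hdat i⟩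
  have hWb : ∀ i τ, ‖W i τ‖ ≤ 3 * (B / 2 ^ i) * M := fun i τ => hq3 _ _ ⟨hBi i, hdat i⟩ τ
  have hWD : ∀ i, Bd n r (3 * (B / 2 ^ i) * D) (W i) := fun i => hq4 _ _ ⟨hBi i, hdat i⟩
  have hWe : ∀ i, ∀ τ ∈ Set.Icc a 1, (s i).1 τ = W i τ + (s (i + 1)).1 τ := fun i τ hτ =>
    hq5 _ _ ⟨hBi i, hdat i⟩ τ hτ
  have hgeo : ∀ X : ℝ, HasSum (fun i : ℕ => 3 * (B / 2 ^ i) * X) (6 * B * X) := by
    intro X
    have h1 := (hasSum_geometric_two).mul_left (3 * B * X)
    have e1 : 3 * B * X * 2 = 6 * B * X := by ring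
    rw [e1] at h1
    refine h1.congr_fun ?_ |> fun h => h
    intro i
    rw [one_div, inv_pow]
    ring
  refine ⟨fun τ => ∑' i, W i τ, continuous_tsum hWc (hgeo M).summable hWb, ?_, ?_, ?_⟩
  · intro τ hτ
    have hsum : ∀ N, ∑ i ∈ Finset.range N, W i τ = φ τ - (s N).1 τ := by
      intro N
      induction N with
      | zero =>
        rw [Finset.sum_range_zero, hs0, sub_self]
      | succ N ih =>
        rw [Finset.sum_range_succ, ih, hWe N τ hτ]
        ring
    have h1 : Summable fun i => W i τ :=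
      Summable.of_norm_bounded (hgeo M).summable fun i => hWb i τ
    have h2 := h1.hasSum.tendsto_sum_nat
    have h3 : Tendsto (fun N => φ τ - (s N).1 τ) atTop (𝓝 (φ τ)) := by
      have h4 : Tendsto (fun N => (s N).1 τ) atTop (𝓝 0) := by
        refine squeeze_zero_norm (fun N => ((hdat N).2.2 τ hτ).1) ?_
        have h5 : Tendsto (fun N : ℕ => B * (1 / 2 : ℝ) ^ N) atTop (𝓝 (B * 0)) :=
          (tendsto_pow_atTop_nhds_zero_of_lt_one (by norm_num) (by norm_num)).const_mul B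
        rw [mul_zero] at h5
        refine h5.congr fun N => ?_
        rw [one_div, inv_pow]
        rfl
      have := (tendsto_const_nhds (x := φ τ)).sub h4
      rwa [sub_zero] at this
    refine tendsto_nhds_unique h2 (h3.congr fun N => (hsum N).symm)
  · intro τ _
    exact tsum_of_norm_bounded (hgeo M) fun i => hWb i τ
  · have h1 := Bd.tsum (n := n) hn (r := r) hWc hWb (hgeo M).summable hWD (hgeo D).summable
    rw [(hgeo D).tsum_eq] at h1
    exact h1

end Pool.Agent.Q144.SL
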