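import Mathlib
import Pool.Agent.Q167.SL.StmA

/-!
# Project SL2: A-FOUR, absolutely convergent Fourier series of `C¹` functions
-/

set_option autoImplicit false
set_option linter.unusedVariables false

open MeasureTheory Filter Topology

namespace Pool.Agent.Q144.SL

open Pool.Agent.Q167.SL

theorem hasSum_int_sq : HasSum (fun j : ℤ => 1 / (j : ℝ) ^ 2) (Real.pi ^ 2 / 6 + Real.pi ^ 2 / 6) := by
  apply HasSum.of_nat_of_neg_add_one
  · have := hasSum_zeta_two
    refine this.congr_fun ?_ |> fun h => h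
    intro n
    push_cast
    rfl
  · have h := (hasSum_nat_add_iff' 1).2 hasSum_zeta_two
    rw [Finset.sum_range_one, Nat.cast_zero, zero_pow two_ne_zero, div_zero, sub_zero] at h
    refine h.congr_fun ?_ |> fun h => h
    intro n
    push_cast
    rw [neg_sq]

theorem cl_id {a τ : ℝ} (h : τ ∈ Set.Icc a 1) : max a (min 1 τ) = τ := by
  rw [min_eq_right h.2, max_eq_right h.1]

theorem cl_mem {a : ℝ} (ha : a ≤ 1) (τ : ℝ) : max a (min 1 τ) ∈ Set.Icc a 1 :=
  ⟨le_max_left _ _, max_le ha (min_le_left _ _)⟩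

theorem four : S_four := by
  intro a B φ φd ha ha1 hd hcd hB
  have hB0 : 0 ≤ B := (norm_nonneg _).trans (hB a ⟨le_rfl, ha1.le⟩).1
  rcases eq_or_lt_of_le hB0 with hBz | hBpos
  · refine ⟨fun _ => 0, ?_, ?_, ?_⟩
    · simp
    · simp [← hBz]
    · intro τ hτ
      have h1 := (hB τ hτ).1
      rw [← hBz] at h1
      have h2 : φ τ = 0 := norm_le_zero_iff.1 h1
      rw [h2]
      simp
  set l : ℝ := 1 - a with hl
  have hl0 : 0 < l := by linarith
  have hl2 : l ≤ 2 := by linarith
  set T : ℝ := 2 * l with hT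
  have hTf : Fact (0 < T) := ⟨by linarith⟩
  have hcφ : ContinuousOn φ (Set.Icc a 1) := fun τ hτ => (hd τ hτ).continuousWithinAt
  have hclc : Continuous fun τ : ℝ => max a (min 1 τ) := by fun_prop
  let F : ℝ → ℂ := fun τ => φ (max a (min 1 τ))
  let Fd : ℝ → ℂ := fun τ => φd (max a (min 1 τ))
  have hF : Continuous F := hcφ.comp_continuous hclc (cl_mem ha1.le)
  have hFd : Continuous Fd := hcd.comp_continuous hclc (cl_mem ha1.le)
  have hFB : ∀ τ, ‖F τ‖ ≤ B := fun τ => (hB _ (cl_mem ha1.le τ)).1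
  have hFdB : ∀ τ, ‖Fd τ‖ ≤ B := fun τ => (hB _ (cl_mem ha1.le τ)).2
  have hFe : ∀ τ ∈ Set.Icc a 1, F τ = φ τ := fun τ hτ => by
    show φ (max a (min 1 τ)) = φ τ
    rw [cl_id hτ]
  have hFde : ∀ τ ∈ Set.Icc a 1, Fd τ = φd τ := fun τ hτ => by
    show φd (max a (min 1 τ)) = φd τ
    rw [cl_id hτ]
  let ψ : ℝ → ℂ := fun x => F (a + |x|)
  let ψd : ℝ → ℂ := fun x => if 0 ≤ x then Fd (a + x) else -Fd (a - x)
  have hψ : Continuous ψ := by
    have : Continuous fun x : ℝ => a + |x| := by fun_prop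
    exact hF.comp this
  have hψB : ∀ x, ‖ψ x‖ ≤ B := fun x => hFB _
  have hψdB : ∀ x, ‖ψd x‖ ≤ B := by
    intro x
    show ‖if 0 ≤ x then Fd (a + x) else -Fd (a - x)‖ ≤ B
    split_ifs
    · exact hFdB _
    · rw [norm_neg]; exact hFdB _
  have hψdm : Measurable ψd := by
    refine Measurable.ite measurableSet_Ici ?_ ?_
    · exact (hFd.comp (by fun_prop : Continuous fun x : ℝ => a + x)).measurable
    · exact (hFd.comp (by fun_prop : Continuous fun x : ℝ => a - x)).measurable.neg
  -- the derivative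
  have hR : ∀ τ, a ≤ τ → τ < 1 → HasDerivWithinAt F (Fd τ) (Set.Ici τ) τ := by
    intro τ h1 h2
    have hm : τ ∈ Set.Icc a 1 := ⟨h1, h2.le⟩
    have h3 := hd τ hm
    rw [← hFde τ hm] at h3
    have h4 : HasDerivWithinAt F (Fd τ) (Set.Icc a 1) τ := h3.congr hFe (hFe τ hm)
    refine (h4.mono (Set.Icc_subset_Icc_left h1)).mono_of_mem_nhdsWithin ?_
    exact Icc_mem_nhdsGE h2
  have hI : ∀ τ, a < τ → τ < 1 → HasDerivAt F (Fd τ) τ := by
    intro τ h1 h2
    have hm : τ ∈ Set.Icc a 1 := ⟨h1.le, h2.le⟩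
    have h3 := hd τ hm
    rw [← hFde τ hm] at h3
    have h4 : HasDerivWithinAt F (Fd τ) (Set.Icc a 1) τ := h3.congr hFe (hFe τ hm)
    exact h4.hasDerivAt (Icc_mem_nhds h1 h2)
  have hab : -l < -l + T := by linarith
  have hder : ∀ x, x ∈ Set.Ioo (min (-l) (-l + T)) (max (-l) (-l + T)) →
      HasDerivWithinAt ψ (ψd x) (Set.Ioi x) x := by
    intro x hx
    rw [min_eq_left hab.le, max_eq_right hab.le] at hx
    have hx2 : x < l := by linarith [hx.2]
    rcases le_or_gt 0 x with h | h
    · have e1 : ψd x = Fd (a + x) := if_pos h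
      rw [e1]
      have h1 := hR (a + x) (by linarith) (by linarith)
      have h2 : HasDerivWithinAt (fun y : ℝ => a + y) 1 (Set.Ici x) x :=
        (hasDerivWithinAt_id x _).const_add a
      have h3 := h1.scomp x h2 (fun y hy => by
        show a + x ≤ a + y
        have : x ≤ y := hy
        linarith)
      rw [one_smul] at h3
      refine (h3.mono Set.Ioi_subset_Ici_self).congr ?_ ?_
      · intro y hy
        have : 0 ≤ y := h.trans (le_of_lt hy)
        show F (a + |y|) = F (a + y)
        rw [abs_of_nonneg this]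
      · show F (a + |x|) = F (a + x)
        rw [abs_of_nonneg h]
    · have e1 : ψd x = -Fd (a - x) := if_neg (not_le.2 h)
      rw [e1]
      have h1 := hI (a - x) (by linarith) (by linarith [hx.1])
      have h2 : HasDerivAt (fun y : ℝ => a - y) (-1) x := (hasDerivAt_id x).const_sub a
      have h3 := h1.scomp x h2
      rw [neg_smul, one_smul] at h3
      refine (h3.congr_of_eventuallyEq ?_).hasDerivWithinAt
      filter_upwards [eventually_lt_nhds h] with y hy
      show F (a + |y|) = F (a - y)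
      rw [abs_of_neg hy, sub_eq_add_neg]
  have hend : ψ (-l + T) = ψ (-l) := by
    have e : -l + T = l := by rw [hT]; ring
    rw [e]
    show F (a + |l|) = F (a + |-l|)
    rw [abs_neg]
  -- the coefficients
  have hint : IntervalIntegrable ψd volume (-l) (-l + T) := by
    refine ⟨?_, ?_⟩
    · exact Integrable.of_bound hψdm.aestronglyMeasurable B (Eventually.of_forall hψdB)
    · exact Integrable.of_bound hψdm.aestronglyMeasurable B (Eventually.of_forall hψdB)
  have hπ := Real.pi_pos
  have hcoef : ∀ n : ℤ, n ≠ 0 → ‖fourierCoeffOn hab ψ n‖ =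
      l / Real.pi * (‖fourierCoeffOn hab ψd n‖ / |(n : ℝ)|) := by
    intro n hn
    rw [fourierCoeffOn_of_hasDeriv_right hab hn hψ.continuousOn hder hint, hend, sub_self, mul_zero,
      zero_sub, norm_mul, norm_neg, norm_mul, norm_div, norm_one, norm_mul, norm_mul, norm_mul,
      norm_neg, Complex.norm_I, Complex.norm_intCast, Complex.norm_real, Real.norm_eq_abs,
      abs_of_pos hπ, mul_one]
    have e1 : (((-l + T : ℝ) : ℂ) - ((-l : ℝ) : ℂ)) = ((T : ℝ) : ℂ) := by
      push_cast; ring
    rw [e1, Complex.norm_real, Real.norm_eq_abs, abs_of_pos hTf.out]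
    have hn' : |(n : ℝ)| ≠ 0 := by
      rw [abs_ne_zero]
      exact_mod_cast hn
    have h2 : ‖(2 : ℂ)‖ = 2 := by norm_num
    rw [h2]
    generalize ‖fourierCoeffOn hab ψd n‖ = X
    rw [hT]
    field_simp
  have hc0 : ‖fourierCoeffOn hab ψ 0‖ ≤ B := by
    rw [fourierCoeffOn_eq_integral, norm_smul]
    have h1 : ‖∫ x in (-l)..(-l + T), (fourier (-0) (x : AddCircle (-l + T - -l)) : ℂ) • ψ x‖ ≤
        B * |(-l + T) - (-l)| := by
      apply intervalIntegral.norm_integral_le_of_norm_le_const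
      intro x _
      rw [norm_smul, fourier_apply, Circle.norm_coe, one_mul]
      exact hψB x
    have e : -l + T - -l = T := by ring
    rw [e, abs_of_pos hTf.out] at h1
    rw [e, Real.norm_eq_abs, abs_of_pos (by have := hTf.out; positivity)]
    have h3 := mul_le_mul_of_nonneg_left h1 (show 0 ≤ 1 / T by have := hTf.out; positivity)
    refine h3.trans (le_of_eq ?_)
    have := hTf.out.ne'
    field_simp
  have hmem : MemLp ψd 2 (volume.restrict (Set.Ioc (-l) (-l + T))) :=
    MemLp.of_bound hψdm.aestronglyMeasurable B (Eventually.of_forall hψdB)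
  have hbes := hasSum_sq_fourierCoeffOn hab hmem
  set D := (-l + T - -l)⁻¹ • ∫ x in (-l)..(-l + T), ‖ψd x‖ ^ 2 with hD
  have hDB : D ≤ B ^ 2 := by
    have h1 : ‖∫ x in (-l)..(-l + T), ‖ψd x‖ ^ 2‖ ≤ B ^ 2 * |(-l + T) - (-l)| := by
      apply intervalIntegral.norm_integral_le_of_norm_le_const
      intro x _
      rw [norm_pow, norm_norm]
      exact pow_le_pow_left₀ (norm_nonneg _) (hψdB x) 2
    have e : -l + T - -l = T := by ring
    rw [e, abs_of_pos hTf.out, Real.norm_eq_abs] at h1
    rw [hD, e, smul_eq_mul]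
    have hTp := hTf.out
    calc T⁻¹ * ∫ x in (-l)..(-l + T), ‖ψd x‖ ^ 2 ≤ T⁻¹ * (B ^ 2 * T) := by
          apply mul_le_mul_of_nonneg_left ((le_abs_self _).trans h1)
          positivity
      _ = B ^ 2 := by field_simp
  -- the summable bound
  let bd : ℤ → ℝ := fun j => (if j = 0 then B else 0) +
    l / Real.pi * (‖fourierCoeffOn hab ψd j‖ ^ 2 / B + B / 4 * (1 / (j : ℝ) ^ 2))
  have hbdsum : HasSum bd (B + l / Real.pi * (D / B + B / 4 * (Real.pi ^ 2 / 6 + Real.pi ^ 2 / 6))) := by
    refine (hasSum_ite_eq 0 B).add (HasSum.mul_left _ ?_)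
    exact (hbes.div_const B).add (hasSum_int_sq.mul_left _)
  have hle : ∀ j, ‖fourierCoeffOn hab ψ j‖ ≤ bd j := by
    intro j
    have hnn : 0 ≤ l / Real.pi * (‖fourierCoeffOn hab ψd j‖ ^ 2 / B + B / 4 * (1 / (j : ℝ) ^ 2)) := by
      positivity
    by_cases hj : j = 0
    · subst hj
      show _ ≤ (if (0 : ℤ) = 0 then B else 0) + _
      rw [if_pos rfl]
      linarith
    · show _ ≤ (if j = 0 then B else 0) + _
      rw [if_neg hj, zero_add, hcoef j hj]
      apply mul_le_mul_of_nonneg_left _ (by positivity)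
      set d := ‖fourierCoeffOn hab ψd j‖
      have hj' : 0 < |(j : ℝ)| := by
        rw [abs_pos]
        exact_mod_cast hj
      have e : (j : ℝ) ^ 2 = |(j : ℝ)| ^ 2 := (sq_abs _).symm
      rw [e]
      set m := |(j : ℝ)|
      have h1 : d ^ 2 / B + B / 4 * (1 / m ^ 2) - d / m = (d - B / (2 * m)) ^ 2 / B := by
        field_simp
        ring
      have h2 : 0 ≤ (d - B / (2 * m)) ^ 2 / B := by positivity
      linarith
  have hsumm : Summable fun j => ‖fourierCoeffOn hab ψ j‖ :=
    Summable.of_nonneg_of_le (fun j => norm_nonneg _) hle hbdsum.summable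
  have htot : ∑' j, ‖fourierCoeffOn hab ψ j‖ ≤ 3 * B := by
    have h1 : ∑' j, ‖fourierCoeffOn hab ψ j‖ ≤
        B + l / Real.pi * (D / B + B / 4 * (Real.pi ^ 2 / 6 + Real.pi ^ 2 / 6)) := by
      rw [← hbdsum.tsum_eq]
      exact hsumm.tsum_le_tsum hle hbdsum.summable
    refine h1.trans ?_
    have h2 : D / B ≤ B := by
      rw [div_le_iff₀ hBpos]
      nlinarith
    have h3 : l / Real.pi * (D / B + B / 4 * (Real.pi ^ 2 / 6 + Real.pi ^ 2 / 6)) ≤
        2 / Real.pi * (B + B / 4 * (Real.pi ^ 2 / 6 + Real.pi ^ 2 / 6)) := by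
      apply mul_le_mul
      · exact div_le_div_of_nonneg_right hl2 hπ.le
      · linarith
      · have : 0 ≤ D := by
          have h9 : 0 ≤ ∫ x in (-l)..(-l + T), ‖ψd x‖ ^ 2 :=
            intervalIntegral.integral_nonneg hab.le fun x _ => by positivity
          rw [hD, smul_eq_mul]
          have e : -l + T - -l = T := by ring
          rw [e]
          have := hTf.out
          positivity
        positivity
      · positivity
    have h4 : 2 / Real.pi * (B + B / 4 * (Real.pi ^ 2 / 6 + Real.pi ^ 2 / 6)) =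
        B * (2 / Real.pi + Real.pi / 6) := by
      field_simp
      ring
    rw [h4] at h3
    have h5 : 2 / Real.pi ≤ 2 / 3 := by
      apply div_le_div_of_nonneg_left (by norm_num) (by norm_num)
      exact Real.pi_gt_three.le
    have h6 : Real.pi / 6 ≤ 2 / 3 := by
      have := Real.pi_le_four
      linarith
    nlinarith
  -- the pointwise sum
  have hcont : Continuous (AddCircle.liftIco T (-l) ψ) :=
    AddCircle.liftIco_continuous hend.symm hψ.continuousOn
  let Ψ : C(AddCircle T, ℂ) := ⟨AddCircle.liftIco T (-l) ψ, hcont⟩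
  have hΨc : ∀ n, fourierCoeff Ψ n = fourierCoeffOn hab ψ n := fun n =>
    fourierCoeff_liftIco_eq ψ n
  have hΨs : Summable (fourierCoeff Ψ) := by
    have : fourierCoeff Ψ = fourierCoeffOn hab ψ := funext hΨc
    rw [this]
    exact hsumm.of_norm
  have hΨv : ∀ τ ∈ Set.Icc a 1, Ψ ((τ - a : ℝ) : AddCircle T) = φ τ := by
    intro τ hτ
    have hx : 0 ≤ τ - a := by linarith [hτ.1]
    have hval : ∀ x : ℝ, x = τ - a ∨ x = -(τ - a) → ψ x = φ τ := by
      intro x hx'
      show F (a + |x|) = φ τ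
      have : |x| = τ - a := by
        rcases hx' with h | h
        · rw [h, abs_of_nonneg hx]
        · rw [h, abs_neg, abs_of_nonneg hx]
      rw [this, add_sub_cancel, hFe τ hτ]
    rcases lt_or_ge (τ - a) l with h | h
    · show AddCircle.liftIco T (-l) ψ ((τ - a : ℝ) : AddCircle T) = φ τ
      rw [AddCircle.liftIco_coe_apply ⟨by linarith, by rw [hT]; linarith⟩]
      exact hval _ (Or.inl rfl)
    · have h1 : τ - a = l := le_antisymm (by linarith [hτ.2]) h
      have h2 : ((τ - a : ℝ) : AddCircle T) = ((-l : ℝ) : AddCircle T) := by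
        rw [h1]
        have : l = -l + T := by rw [hT]; ring
        rw [this, AddCircle.coe_add_period]
        congr 1
        rw [hT]
        ring
      rw [h2]
      show AddCircle.liftIco T (-l) ψ ((-l : ℝ) : AddCircle T) = φ τ
      rw [AddCircle.liftIco_coe_apply ⟨le_rfl, by linarith⟩]
      exact hval _ (Or.inr (by rw [h1]))
  refine ⟨fun j => fourierCoeffOn hab ψ j *
    Complex.exp ((((-(Real.pi * j * a / l)) : ℝ) : ℂ) * Complex.I), ?_, ?_, ?_⟩
  · refine hsumm.congr fun j => ?_
    rw [norm_mul, Complex.norm_exp_ofReal_mul_I, mul_one]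
  · have : (fun j : ℤ => ‖fourierCoeffOn hab ψ j *
        Complex.exp ((((-(Real.pi * j * a / l)) : ℝ) : ℂ) * Complex.I)‖) =
        fun j => ‖fourierCoeffOn hab ψ j‖ := by
      funext j
      rw [norm_mul, Complex.norm_exp_ofReal_mul_I, mul_one]
    rw [this]
    exact htot
  · intro τ hτ
    have h1 := has_pointwise_sum_fourier_series_of_summable hΨs ((τ - a : ℝ) : AddCircle T)
    rw [hΨv τ hτ] at h1
    refine h1.congr_fun ?_ |> fun h => h
    intro j
    rw [hΨc, fourier_coe_apply, smul_eq_mul, mul_assoc, ← Complex.exp_add]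
    congr 2
    have hlc : ((l : ℝ) : ℂ) ≠ 0 := by exact_mod_cast hl0.ne'
    rw [hT]
    push_cast
    field_simp
    ring

end Pool.Agent.Q144.SL
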