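import Mathlib
import Pool.Agent.Q144.SL.Pr

/-!
# Project SL2: A-MEAN and A-LP
-/

set_option autoImplicit false
set_option linter.unusedVariables false

open MeasureTheory Filter Topology
open scoped Pointwise

namespace Pool.Agent.Q144.SL

open Pool.Agent.TH41.KL (PD cosA)
open Pool.Agent.Q167.SL

theorem nontriv {n : ℕ} (hn : 0 < n) : Nontrivial (Eu n) := by
  apply Module.nontrivial_of_finrank_pos (R := ℝ)
  rw [finrank_euclideanSpace, Fintype.card_fin]
  exact hn

theorem ball_scale {n : ℕ} (hn : 0 < n) {r : ℝ} (hr : 0 ≤ r) (f : Eu n → ℝ)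
    (hf : ∀ a : ℝ, 0 < a → ∀ x, f (a • x) = f x) :
    ∫ x in Metric.ball (0 : Eu n) r, f x = r ^ n * ∫ x in Metric.ball (0 : Eu n) 1, f x := by
  rcases eq_or_lt_of_le hr with h | h
  · rw [← h, Metric.ball_zero, Measure.restrict_empty, integral_zero_measure, zero_pow hn.ne',
      zero_mul]
  · have h1 := Measure.setIntegral_comp_smul_of_pos volume f (Metric.ball (0 : Eu n) 1) h
    have h2 : r • Metric.ball (0 : Eu n) 1 = Metric.ball (0 : Eu n) r := by
      rw [smul_ball h.ne', smul_zero, Real.norm_eq_abs, abs_of_pos h, mul_one]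
    have h3 : ∫ x in Metric.ball (0 : Eu n) 1, f (r • x) = ∫ x in Metric.ball (0 : Eu n) 1, f x :=
      setIntegral_congr_fun measurableSet_ball fun x _ => hf r h x
    rw [h2, h3, finrank_euclideanSpace, Fintype.card_fin, smul_eq_mul] at h1
    rw [h1, ← mul_assoc, mul_inv_cancel₀ (pow_pos h n).ne', one_mul]

theorem shell_eq {n : ℕ} {r : ℝ} :
    shell n r = Metric.ball (0 : Eu n) 1 \ Metric.closedBall (0 : Eu n) r := by
  ext x
  rw [Set.mem_sdiff, mem_ball_zero_iff, mem_closedBall_zero_iff, not_le]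
  exact and_comm

theorem closed_ae {n : ℕ} (hn : 0 < n) (r : ℝ) :
    (Metric.closedBall (0 : Eu n) r : Set (Eu n)) =ᵐ[volume] Metric.ball (0 : Eu n) r := by
  have := nontriv hn
  rw [ae_eq_set]
  constructor
  · rw [Metric.closedBall_sdiff_ball]
    exact Measure.addHaar_sphere volume 0 r
  · rw [Set.sdiff_eq_empty.2 Metric.ball_subset_closedBall]
    exact measure_empty

theorem hom {n : ℕ} (hn : 0 < n) {r : ℝ} (hr : 0 ≤ r) (hr1 : r < 1) (f : Eu n → ℝ)
    (hf : ∀ a : ℝ, 0 < a → ∀ x, f (a • x) = f x)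
    (hi : IntegrableOn f (Metric.ball (0 : Eu n) 1)) :
    ∫ x in shell n r, f x = (1 - r ^ n) * ∫ x in Metric.ball (0 : Eu n) 1, f x := by
  have hsub : Metric.closedBall (0 : Eu n) r ⊆ Metric.ball (0 : Eu n) 1 :=
    Metric.closedBall_subset_ball hr1
  rw [shell_eq, setIntegral_sdiff Metric.isClosed_closedBall.measurableSet hi hsub,
    setIntegral_congr_set (closed_ae hn r), ball_scale hn hr f hf]
  ring

theorem vs_eq {n : ℕ} (hn : 0 < n) {r : ℝ} (hr : 0 ≤ r) (hr1 : r < 1) :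
    vs n r = (1 - r ^ n) * (volume (Metric.ball (0 : Eu n) 1)).toReal := by
  have h := hom hn hr hr1 (fun _ => (1 : ℝ)) (fun _ _ _ => rfl)
    (integrableOn_const measure_ball_lt_top.ne)
  rw [setIntegral_const, setIntegral_const, smul_eq_mul, smul_eq_mul, mul_one, mul_one] at h
  exact h

theorem ball_vol_pos {n : ℕ} : 0 < (volume (Metric.ball (0 : Eu n) 1)).toReal :=
  ENNReal.toReal_pos (Metric.measure_ball_pos volume _ one_pos).ne' measure_ball_lt_top.ne

section real

variable {n : ℕ} {h v : ℝ → ℝ}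

theorem rker_meas (hh : Continuous h) (hv : Continuous v) :
    Measurable fun p : Eu n × Eu n => h (cosA p.1 p.2) * v (inner ℝ p.1 p.2) := by
  have h1 : Measurable fun p : Eu n × Eu n => h (cosA p.1 p.2) := hh.measurable.comp cosA_meas
  have h2 : Measurable fun p : Eu n × Eu n => v (inner ℝ p.1 p.2) :=
    hv.measurable.comp continuous_inner.measurable
  exact h1.mul h2

theorem rker_meas' (hh : Continuous h) (hv : Continuous v) (x : Eu n) :
    Measurable fun y : Eu n => h (cosA x y) * v (inner ℝ x y) := by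
  let f : Eu n → Eu n × Eu n := fun y => (x, y)
  have h1 : Measurable f := measurable_prodMk_left
  have h2 := (rker_meas (n := n) hh hv).comp h1
  exact h2

theorem rker_bound {M b : ℝ} (hM : ∀ t, |h t| ≤ M) (hb : ∀ t, |v t| ≤ b) (x y : Eu n) :
    ‖h (cosA x y) * v (inner ℝ x y)‖ ≤ M * b := by
  rw [norm_mul, Real.norm_eq_abs, Real.norm_eq_abs]
  exact mul_le_mul (hM _) (hb _) (abs_nonneg _) ((abs_nonneg _).trans (hM 0))

theorem rker_int (hh : Continuous h) (hv : Continuous v) {M b : ℝ} (hM : ∀ t, |h t| ≤ M)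
    (hb : ∀ t, |v t| ≤ b) (μ : Measure (Eu n)) [IsFiniteMeasure μ] (x : Eu n) :
    Integrable (fun y : Eu n => h (cosA x y) * v (inner ℝ x y)) μ :=
  Integrable.of_bound (rker_meas' hh hv x).aestronglyMeasurable (M * b)
    (Eventually.of_forall fun y => rker_bound hM hb x y)

theorem router_meas (hh : Continuous h) (hv : Continuous v) (μ : Measure (Eu n))
    [IsFiniteMeasure μ] :
    StronglyMeasurable fun x : Eu n => ∫ y, h (cosA x y) * v (inner ℝ x y) ∂μ :=
  (rker_meas hh hv).stronglyMeasurable.integral_prod_right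

theorem router_int (hh : Continuous h) (hv : Continuous v) {M b : ℝ} (hM : ∀ t, |h t| ≤ M)
    (hb : ∀ t, |v t| ≤ b) (μ ν : Measure (Eu n)) [IsFiniteMeasure μ] [IsFiniteMeasure ν] :
    Integrable (fun x : Eu n => ∫ y, h (cosA x y) * v (inner ℝ x y) ∂μ) ν :=
  Integrable.of_bound (router_meas hh hv μ).aestronglyMeasurable (M * b * μ.real Set.univ)
    (Eventually.of_forall fun x =>
      norm_integral_le_of_norm_le_const (Eventually.of_forall fun y => rker_bound hM hb x y))

end real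

/-- the real form of the pairing -/
theorem pr_real {n : ℕ} {r : ℝ} {g h v w : ℝ → ℝ}
    (hg : ∀ t ∈ Set.Icc (-1 : ℝ) 1, h t = g t) (hv : ∀ t ∈ Set.Icc (-1 : ℝ) 1, w t = v t) :
    pr n r g (fun τ => ((v τ : ℝ) : ℂ)) = ((∫ x in shell n r, ∫ y in shell n r,
      h (cosA x y) * w (inner ℝ x y) : ℝ) : ℂ) := by
  rw [pr_congr hg (u' := fun τ => ((w τ : ℝ) : ℂ)) (fun t ht => by rw [hv t ht])]
  rw [← integral_complex_ofReal]
  refine integral_congr_ae (Eventually.of_forall fun x => ?_)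
  show ∫ y in shell n r, ((h (cosA x y) : ℝ) : ℂ) * ((w (inner ℝ x y) : ℝ) : ℂ) =
    ((∫ y in shell n r, h (cosA x y) * w (inner ℝ x y) : ℝ) : ℂ)
  rw [← integral_complex_ofReal]
  refine integral_congr_ae (Eventually.of_forall fun y => ?_)
  show ((h (cosA x y) : ℝ) : ℂ) * ((w (inner ℝ x y) : ℝ) : ℂ) =
    ((h (cosA x y) * w (inner ℝ x y) : ℝ) : ℂ)
  rw [Complex.ofReal_mul]

theorem mean : S_mean := by
  intro n r g hn hr hr1 hg
  obtain ⟨h, hc, he, M, hM0, hM⟩ := exists_ext hg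
  have h1 : (fun _ : ℝ => (1 : ℂ)) = fun τ : ℝ => (((fun _ : ℝ => (1 : ℝ)) τ : ℝ) : ℂ) := by
    funext τ
    rw [Complex.ofReal_one]
  rw [h1, pr_real he (fun _ _ => rfl)]
  congr 1
  have hb1 : ∀ t : ℝ, |(fun _ : ℝ => (1 : ℝ)) t| ≤ 1 := fun _ => by
    show |(1 : ℝ)| ≤ 1
    rw [abs_one]
  have hc1 : Continuous fun _ : ℝ => (1 : ℝ) := continuous_const
  set B := Metric.ball (0 : Eu n) 1 with hB
  set V := (volume B).toReal with hV
  have hVpos : 0 < V := ball_vol_pos
  -- the inner integral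
  have hin : ∀ x : Eu n, ∫ y in shell n r, h (cosA x y) * (1 : ℝ) =
      (1 - r ^ n) * ∫ y in B, h (cosA x y) * (1 : ℝ) := by
    intro x
    refine hom hn hr hr1 (fun y => h (cosA x y) * (1 : ℝ)) ?_ ?_
    · intro a ha y
      show h (cosA x (a • y)) * 1 = _
      rw [cosA_smul' x y ha]
    · exact rker_int hc hc1 hM hb1 _ x
  have hout : ∫ x in shell n r, (∫ y in B, h (cosA x y) * (1 : ℝ)) =
      (1 - r ^ n) * ∫ x in B, ∫ y in B, h (cosA x y) * (1 : ℝ) := by
    refine hom hn hr hr1 (fun x => ∫ y in B, h (cosA x y) * (1 : ℝ)) ?_ ?_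
    · intro a ha x
      show ∫ y in B, h (cosA (a • x) y) * (1 : ℝ) = _
      refine integral_congr_ae (Eventually.of_forall fun y => ?_)
      show h (cosA (a • x) y) * 1 = h (cosA x y) * 1
      rw [cosA_smul x y ha]
    · exact router_int hc hc1 hM hb1 _ _
  have hgg : ∫ x in B, ∫ y in B, h (cosA x y) * (1 : ℝ) = ∫ x in B, ∫ y in B, g (cosA x y) := by
    refine integral_congr_ae (Eventually.of_forall fun x => ?_)
    refine integral_congr_ae (Eventually.of_forall fun y => ?_)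
    show h (cosA x y) * 1 = g (cosA x y)
    rw [mul_one, he _ (cosA_mem x y)]
  show ∫ x in shell n r, ∫ y in shell n r, h (cosA x y) * (1 : ℝ) = _
  simp only [hin]
  rw [integral_const_mul, hout, hgg, vs_eq hn hr hr1]
  show _ = (∫ x in B, ∫ y in B, g (cosA x y)) / V ^ 2 * ((1 - r ^ n) * V) ^ 2
  field_simp

theorem lp (hmean : S_mean) : S_lp := by
  intro n r s D v hn hr hr1 hs hs1 hv hv1 hv2 hBd g hg hPD hneg
  obtain ⟨h, hc, he, M, hM0, hM⟩ := exists_ext hg
  obtain ⟨w, hwc, hwe, N, hN0, hN⟩ := exists_ext (g := v) hv.continuousOn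
  have hm := hmean n r g hn hr.le hr1 hg
  set mu := (∫ u in Metric.ball (0 : EuclideanSpace ℝ (Fin n)) 1,
    ∫ w in Metric.ball (0 : EuclideanSpace ℝ (Fin n)) 1, g (cosA u w)) /
      (volume (Metric.ball (0 : EuclideanSpace ℝ (Fin n)) 1)).toReal ^ 2 with hmu
  have hvs := vs_pos hn hr.le hr1
  have hb1 : ∀ t : ℝ, |(fun _ : ℝ => (1 : ℝ)) t| ≤ 1 := fun _ => by
    show |(1 : ℝ)| ≤ 1
    rw [abs_one]
  have hc1 : Continuous fun _ : ℝ => (1 : ℝ) := continuous_const
  have h1 : (fun _ : ℝ => (1 : ℂ)) = fun τ : ℝ => (((fun _ : ℝ => (1 : ℝ)) τ : ℝ) : ℂ) := by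
    funext τ
    rw [Complex.ofReal_one]
  rw [h1, pr_real he (fun _ _ => rfl), Complex.ofReal_inj] at hm
  have hb := hBd g hg hPD
  rw [pr_real he hwe, Complex.norm_real, Real.norm_eq_abs] at hb
  have hle : ∫ x in shell n r, ∫ y in shell n r, h (cosA x y) * (fun _ : ℝ => (1 : ℝ)) (inner ℝ x y) ≤
      ∫ x in shell n r, ∫ y in shell n r, h (cosA x y) * w (inner ℝ x y) := by
    refine setIntegral_mono_on (router_int hc hc1 hM hb1 _ _) (router_int hc hwc hM hN _ _)
      shell_meas fun x hx => ?_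
    refine setIntegral_mono_on (rker_int hc hc1 hM hb1 _ x) (rker_int hc hwc hM hN _ x)
      shell_meas fun y hy => ?_
    show h (cosA x y) * 1 ≤ h (cosA x y) * w (inner ℝ x y)
    have hxy := inner_mem hx hy
    rw [hwe _ hxy, he _ (cosA_mem x y)]
    rcases le_or_gt (s * r ^ 2) (inner ℝ x y) with h2 | h2
    · rw [hv1 _ h2 hxy.2]
    · have h3 : cosA x y ≤ s := by
        unfold Pool.Agent.TH41.KL.cosA
        have hx0 : 0 < ‖x‖ := hr.trans hx.1
        have hy0 : 0 < ‖y‖ := hr.trans hy.1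
        rw [div_le_iff₀ (mul_pos hx0 hy0)]
        have h4 : r ^ 2 ≤ ‖x‖ * ‖y‖ := by
          rw [sq]
          exact mul_le_mul hx.1.le hy.1.le hr.le hx0.le
        nlinarith
      have h5 := hneg _ (cosA_mem x y).1 h3
      have h6 := hv2 _ hxy.1 hxy.2
      nlinarith
  rw [hm] at hle
  have h2 : mu * vs n r ^ 2 ≤ D * g 1 * vs n r ^ 2 := hle.trans ((le_abs_self _).trans hb)
  exact le_of_mul_le_mul_right h2 (by positivity)

end Pool.Agent.Q144.SL
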